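import Pool.Agent.Q181.TG.Stm3

set_option autoImplicit false

namespace Pool.Agent.Q181.TG

open Filter Topology

theorem t_chain : S_chain := by
  intro G _ N hN hfi hanti hinf g hg
  obtain ⟨n₀, hn₀⟩ : ∃ n, g ∉ N n := by
    by_contra h
    push Not at h
    apply hg
    have : g ∈ ⨅ n, N n := Subgroup.mem_iInf.2 h
    rw [hinf] at this
    exact Subgroup.mem_bot.1 this
  refine tendsto_const_nhds.congr' ?_
  filter_upwards [eventually_ge_atTop n₀] with n hn
  have h1 : g ∉ N n := fun h => hn₀ (hanti hn h)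
  have h2 : IsEmpty {x : G ⧸ N n // g • x = x} := by
    refine ⟨fun x => ?_⟩
    obtain ⟨x, hx⟩ := x
    obtain ⟨y, rfl⟩ := QuotientGroup.mk_surjective x
    have h3 : ((g * y : G) : G ⧸ N n) = (y : G ⧸ N n) := hx
    rw [QuotientGroup.eq] at h3
    apply h1
    have h4 := (hN n).conj_mem _ h3 y
    have h5 : y * ((g * y)⁻¹ * y) * y⁻¹ = g⁻¹ := by group
    rw [h5] at h4
    exact (N n).inv_mem_iff.1 h4
  rw [Nat.card_of_isEmpty]
  simp

end Pool.Agent.Q181.TG
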