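import Pool.Agent.Q181.BD.Stm3

set_option autoImplicit false

/-!
# Torsion growth of cokernels: definitions for the combinatorial part

Nets, lines and connectedness are those of project BD (`Pool/Agent/Q181/BD/Defs.lean`): `W u v ≠ 0` means
that the vertices `u`, `v` are adjacent.
-/

namespace Pool.Agent.Q181.TG

open Pool.Agent.Q181.BD

variable {V : Type}

/-- a path which is periodic under a power of `T` -/
structure Per (W : V → V → ℤ) (T : Equiv.Perm V) (z : ℤ → V) (d : ℤ) (L : ℕ) : Prop where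
  pos : 1 ≤ L
  ne : d ≠ 0
  inj : Function.Injective z
  adj : ∀ j, W (z j) (z (j + 1)) ≠ 0
  per : ∀ j, (T ^ d) (z j) = z (j + L)

/-- a connected locally finite graph with a free cofinite action of `ℤ`, such that no vertex is
adjacent to one of its translates -/
structure Strip (W : V → V → ℤ) (T : Equiv.Perm V) : Prop where
  symm : ∀ u v, W u v = W v u
  inv : ∀ u v, W (T u) (T v) = W u v
  free : ∀ (n : ℤ) v, (T ^ n) v = v → n = 0
  cof : ∃ F : Finset V, ∀ v, ∃ n : ℤ, (T ^ n) v ∈ F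
  conn : ∀ u v, Conn W u v
  nad : ∀ (n : ℤ) v, W v ((T ^ n) v) = 0
  fin : ∀ u, {v | W u v ≠ 0}.Finite

/-- connected by a path inside `S` -/
def CI (W : V → V → ℤ) (S : Set V) (u v : V) : Prop :=
  Relation.ReflTransGen (fun a b => W a b ≠ 0 ∧ a ∈ S ∧ b ∈ S) u v

/-- the vertices off the path `z` -/
def Offs (z : ℤ → V) : Set V := {u | ∀ i, z i ≠ u}

/-- an ear of the path `z`: `z a`, `z b` are adjacent or connected off the path -/
def Ear (W : V → V → ℤ) (z : ℤ → V) (a b : ℤ) : Prop :=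
  W (z a) (z b) ≠ 0 ∨ ∃ u w, u ∈ Offs z ∧ w ∈ Offs z ∧ W (z a) u ≠ 0 ∧ CI W (Offs z) u w ∧
    W w (z b) ≠ 0

open Classical in
/-- the torus type: `W * W = 4` -/
def TT (W : V → V → ℤ) : Prop := ∀ (u u' : V) (S : Finset V), (∀ v, W u v ≠ 0 → v ∈ S) →
  ∑ v ∈ S, W u v * W u' v = if u = u' then 4 else 0

/-- the cut type: a height function `g` for `T` which is constant on the edges outside the orbit of
the vertex `v`, and `0` or `-1` at the neighbours of `v` -/
structure Gap (W : V → V → ℤ) (T : Equiv.Perm V) (v : V) (g : V → ℤ) : Prop where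
  map : ∀ x, g (T x) = g x + 1
  zero : g v = 0
  const : ∀ x y, W x y ≠ 0 → (∀ n : ℤ, (T ^ n) v ≠ x) → (∀ n : ℤ, (T ^ n) v ≠ y) → g x = g y
  nbr : ∀ x, W v x ≠ 0 → g x = 0 ∨ g x = -1

end Pool.Agent.Q181.TG
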