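import Pool.Agent.Q65.TG.Per
import Pool.Agent.Q66.TG.Twop
import Pool.Agent.Q38.TG.Comp
import Pool.Agent.Q251.TG.Ear1
import Pool.Agent.Q86.TG.Ear2
import Pool.Agent.Q128.TG.EAR3
import Pool.Agent.Q26.TG.Ear
import Pool.Agent.Q128.TG.LEFT
import Pool.Agent.Q251.TG.Nest
import Pool.Agent.Q66.TG.Cmp
import Pool.Agent.Q177.TG.Nf
import Pool.Agent.Q96.TG.TC
import Pool.Agent.Q96.TG.Blk
import Pool.Agent.Q96.TG.Torus
import Pool.Agent.Q98.TG.Row
import Pool.Agent.Q65.TG.Col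
import Pool.Agent.Q150.TG.Cyc
import Pool.Agent.Q86.TG.Avg
import Pool.Agent.Q98.TG.Cfi
import Pool.Agent.Q98.TG.Cto
import Pool.Agent.Q98.TG.Cro
import Pool.Agent.Q98.TG.Main
import Pool.Agent.Q66.TG.Hom
import Pool.Agent.Q86.TG.Walk
import Pool.Agent.Q96.TG.Ext
import Pool.Agent.Q66.TG.Small
import Pool.Agent.Q151.TG.G0
import Pool.Agent.Q86.TG.G1
import Pool.Agent.Q86.TG.Bin
import Pool.Agent.Q150.TG.G2
import Pool.Agent.Q151.TG.Req
import Pool.Agent.Q151.TG.Heis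
import Pool.Agent.Q26.TG.Neg

set_option autoImplicit false

/-!
# Torsion growth of cokernels: the unconditional theorems
-/

namespace Pool.Agent.Q181.TG

open Pool.Agent.Q181.BD TH57.Thr Filter Topology

theorem f_comp : S_comp := Pool.Agent.Q38.TG.t_comp Pool.Agent.Q65.TG.t_per Pool.Agent.Q66.TG.t_twop

theorem f_ear : S_ear := Pool.Agent.Q26.TG.t_ear f_comp Pool.Agent.Q251.TG.t_ear1
  Pool.Agent.Q86.TG.t_ear2 (Pool.Agent.Q128.TG.t_ear3 Pool.Agent.Q65.TG.t_per)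
  Pool.Agent.Q66.TG.t_twop

theorem f_class : S_class := Pool.Agent.Q26.TG.t_class Pool.Agent.Q65.TG.t_per f_ear
  Pool.Agent.Q128.TG.t_left Pool.Agent.Q251.TG.t_nest

theorem f_nf : S_nf := Pool.Agent.Q177.TG.t_nf Pool.Agent.Q66.TG.t_cmp f_class

theorem f_tc : S_tc := Pool.Agent.Q96.TG.t_tc
theorem f_blk : S_blk := Pool.Agent.Q96.TG.t_blk f_tc
theorem f_fin : S_fin := Pool.Agent.Q96.TG.t_fin f_tc f_blk
theorem f_torus : S_torus := Pool.Agent.Q96.TG.t_torus f_tc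
theorem f_row : S_row := Pool.Agent.Q98.TG.t_row f_tc
theorem f_col : S_col := Pool.Agent.Q65.TG.t_col f_tc
theorem f_cyc : S_cyc := Pool.Agent.Q150.TG.t_cyc f_tc
theorem f_split : S_split := Pool.Agent.Q96.TG.t_split f_tc Pool.Agent.Q96.TG.t_ext
theorem f_g0 : S_g0 := Pool.Agent.Q151.TG.t_g0 f_tc f_split Pool.Agent.Q86.TG.t_walk
theorem f_g1 : S_g1 := Pool.Agent.Q86.TG.t_g1 Pool.Agent.Q86.TG.t_walk
theorem f_g2 : S_g2 := Pool.Agent.Q150.TG.t_g2 f_tc Pool.Agent.Q86.TG.t_bin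

theorem f_grow : S_grow := Pool.Agent.Q150.TG.t_grow f_tc f_g0 f_split Pool.Agent.Q66.TG.t_small
  f_g1 f_g2

theorem f_perm : S_perm := Pool.Agent.Q86.TG.t_perm f_tc f_cyc Pool.Agent.Q86.TG.t_avg f_grow

theorem f_main : S_main := Pool.Agent.Q98.TG.t_main f_tc f_blk
  (Pool.Agent.Q98.TG.t_cfi f_tc f_fin) (Pool.Agent.Q98.TG.t_cto f_tc f_torus)
  (Pool.Agent.Q98.TG.t_cro f_tc f_row f_perm) (Pool.Agent.Q98.TG.t_cco f_tc f_col f_perm)

theorem f_neg : S_neg := Pool.Agent.Q26.TG.t_neg f_tc Pool.Agent.Q151.TG.t_req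
  (Pool.Agent.Q151.TG.t_heis Pool.Agent.Q96.TG.t_det f_tc)

/-- **Below `3 / √2` the torsion of the cokernels grows like `K ^ |X|`**, with a natural number `K`
which depends only on the matrix. -/
theorem below (G : Type) [Group G] (htf : ∀ g : G, ∀ k : ℕ, 0 < k → g ^ k = 1 → g = 1)
    (ι κ : Type) [Fintype ι] [Fintype κ] [DecidableEq ι] [DecidableEq κ]
    (A : Matrix ι κ (MonoidAlgebra ℤ G)) (c : ℝ) (hc0 : 0 ≤ c) (hc : c < 3 / Real.sqrt 2)
    (hA : NormLE A c) : ∃ K : ℕ, 1 ≤ K ∧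
      ∀ (X : ℕ → Type) [∀ n, Fintype (X n)] [∀ n, Nonempty (X n)] [∀ n, MulAction G (X n)],
        Far G X → Tendsto (fun n => Real.log (tc (Cok (reg (X n) A))) / Nat.card (X n)) atTop
          (𝓝 (Real.log K)) := by
  obtain ⟨ρ, u, s, h⟩ := f_nf G htf ι κ A c hc0 hc hA
  exact f_main G htf ι κ A ρ u s h

end Pool.Agent.Q181.TG
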