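import Pool.Agent.Q181.TG.Defs

set_option autoImplicit false

/-!
# Statements, part 1: strips

`(W, T)` is a strip: a connected graph with a free cofinite action of `ℤ`, generated by `T`. We show that if
`W` is also a net (`Net W c`, `c < 3 / √2`) then it is of the torus type (`TT`) or of the cut type (`Gap`).
Proved in project BD and to be used: `Pool.Agent.Q175.BD.t_geo : S_geo` (periodic paths contain lines),
`Pool.Agent.Q181.BD.f_tor : S_tor` (two disjoint connected lines; file `Q181/BD/Fin.lean`).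
-/

namespace Pool.Agent.Q181.TG

open Pool.Agent.Q181.BD

/-- (P1) **Periodic paths.** Proof. Consider all chains `c 0, …, c L` (`L ≥ 1`, consecutive vertices adjacent,
all vertices in `S`) with `c L = (T ^ k) (c 0)`, `k ≠ 0`, `s ∣ k`. There are some: `x ∈ S` and `(T ^ s) x ∈ S` are
connected in `S`, and different. Take one with `L` minimal and put
`z n = (T ^ (k * (n / L))) (c (n % L))` (floor division; `c` as a function of `(n % L).toNat`). Then
`(T ^ k) (z n) = z (n + L)`, consecutive vertices are adjacent (at `n % L = L - 1` because `c L = (T ^ k) (c 0)`),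
and `z n ∈ S`. Injectivity: let `z a = z b`, `a < b`, `b = a + t L + r`, `0 ≤ r < L`. If `r = 0` then
`(T ^ (k t)) (z a) = z a` with `t ≥ 1`, contradiction to freeness. Otherwise
`z (a + r) = (T ^ (- k t)) (z a)`. If `t ≠ 0` then `z a, …, z (a + r)` is such a chain of length `r < L`; if `t = 0`
then `z (a + r), …, z (a + L) = (T ^ k) (z a) = (T ^ k) (z (a + r))` is one of length `L - r < L`. Both contradict
the minimality. -/
def S_per : Prop := ∀ (V : Type) (W : V → V → ℤ) (T : Equiv.Perm V), Strip W T →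
  ∀ (S : Set V) (s : ℤ), s ≠ 0 → S.Nonempty → (∀ v, (T ^ s) v ∈ S ↔ v ∈ S) →
    (∀ u ∈ S, ∀ v ∈ S, CI W S u v) →
      ∃ (z : ℤ → V) (d : ℤ) (L : ℕ), Per W T z d L ∧ ∀ j, z j ∈ S

/-- (P2) **Two disjoint periodic paths.** Proof. `S_geo` with the map `T ^ (2 d)` gives lines `p` inside `z` and
`q` inside `z'`; they are disjoint and connected (`Strip.conn`). By `S_tor` the set
`range p ∪ range q` is closed under adjacency, so it is everything (`Strip.conn`), and the second claim of
`S_tor` is `TT W`. (`W u u = 0`: `Net.loop`.) -/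
def S_twop : Prop := ∀ (V : Type) (W : V → V → ℤ) (c : ℝ) (T : Equiv.Perm V), Net W c → Strip W T →
  ∀ (z z' : ℤ → V) (d d' : ℤ) (L L' : ℕ), Per W T z d L → Per W T z' d' L' → (∀ i j, z i ≠ z' j) →
    TT W

/-- (P3) **The components off a periodic path are finite.** Proof. Let `S` be the set of the `w` with
`CI W (Offs z) u w`. `Offs z` is invariant under `T ^ d` (because `z` is periodic: `(T ^ d)` maps the range of
`z` onto itself). The `T ^ d`-orbits are finite in number (from `Strip.cof`: the translates of `F` by `T ^ r`,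
`0 ≤ r < |d|`, meet all of them). If `S` were infinite it would contain two different vertices `x`,
`y = (T ^ (d k)) x` of the same orbit, `k ≠ 0`. Then `(T ^ (d k))` maps the component `S` to the component of
`y`, which is `S`. So `S_per` (with `s = d k`) gives a periodic path in `S`, disjoint from `z`, and `S_twop` gives
`TT W`. (`S_per`, `S_twop` may be assumed.) -/
def S_comp : Prop := ∀ (V : Type) (W : V → V → ℤ) (c : ℝ) (T : Equiv.Perm V), Net W c → Strip W T →
  ¬ TT W → ∀ (z : ℤ → V) (d : ℤ) (L : ℕ), Per W T z d L → ∀ u ∈ Offs z,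
    {w | CI W (Offs z) u w}.Finite

/-- (P4) **Ears are short.** Proof. For fixed `a` the set of the `b` with `Ear W z a b` is finite: `z a` has
finitely many neighbours (`Strip.fin`), the components off `z` are finite (hypothesis), their vertices
have finitely many neighbours, and `z` is injective. `Ear W z a b ↔ Ear W z (a + L) (b + L)` by applying
`T ^ d`. So `b - a` is bounded above. -/
def S_ear1 : Prop := ∀ (V : Type) (W : V → V → ℤ) (T : Equiv.Perm V), Strip W T →
  ∀ (z : ℤ → V) (d : ℤ) (L : ℕ), Per W T z d L →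
    (∀ u ∈ Offs z, {w | CI W (Offs z) u w}.Finite) →
      (∀ a b, Ear W z a b ↔ Ear W z (a + L) (b + L)) ∧ ∃ D : ℤ, ∀ a b, Ear W z a b → b - a ≤ D

/-- (P5) **Chains of overlapping intervals.** Proof. Let `β i` be the largest `b` such that `R a b` for some
`a < i` (exists: `b ≤ i + D`, and there is one with `b > i`), and `α i` the largest `a < i` with `R a (β i)`.
Then `β i > i`, `β (i + L) = β i + L`, `α (i + L) = α i + L`. Iterating `β` from
`0` one gets a strictly increasing sequence; two of its members are congruent modulo `L`, so there are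
`i₀`, `J ≥ 1`, `s ≥ 1` with `β^[J] i₀ = i₀ + s L`. Put `i j = β^[j] i₀` for `0 ≤ j` and extend by
`i (j + J) = i j + s L` to all `j : ℤ` (consistent, since `β` commutes with the translation by `L`:
`i (j + 1) = β (i j)` for all `j`). Replacing `J`, `s` by `2 J`, `2 s` gives the claimed period. Put `a j = α (i j)`. Then
`R (a j) (i (j + 1))` and `a j < i j`. If `x < i j` and `R x y` then `y ≤ β (i j) = i (j + 1)`. In particular
`a (j + 1) < i j` would give `i (j + 2) ≤ i (j + 1)`, which is false; so `i j ≤ a (j + 1) < i (j + 1)`. -/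
def S_ear2 : Prop := ∀ (R : ℤ → ℤ → Prop) (L : ℕ) (D : ℤ), 1 ≤ L →
  (∀ a b, R a b ↔ R (a + L) (b + L)) → (∀ a b, R a b → b - a ≤ D) →
  (∀ i, ∃ a b, a < i ∧ i < b ∧ R a b) →
    ∃ (i a : ℤ → ℤ) (J s : ℕ), 1 ≤ J ∧ 1 ≤ s ∧ (∀ j, R (a j) (i (j + 1))) ∧
      (∀ j, i j ≤ a (j + 1) ∧ a (j + 1) < i (j + 1)) ∧
      (∀ j x y, x < i j → R x y → y ≤ i (j + 1)) ∧
      (∀ j, i (j + 2 * J) = i j + s * L) ∧ ∀ j, a (j + 2 * J) = a j + s * L

/-- (P6) **From a chain of ears to two disjoint periodic paths.** Proof. For `e = 0, 1` let `S e` be the set of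
(i) the vertices `z k` with `i (j + 1) ≤ k ≤ a (j + 2)` for some `j` congruent to `e` modulo `2`, and (ii) the
vertices `u` off `z` such that for some `j` congruent to `e` there are `w`, `w'` off `z` with
`CI W (Offs z) w u`, `CI W (Offs z) u w'`, `W (z (a j)) w ≠ 0`, `W w' (z (i (j + 1))) ≠ 0`.
`S e` is connected: the segment number `j - 2` ends at `z (a j)`; by the ear `j` its end is connected inside
`S e` to `z (i (j + 1))`, the beginning of the segment number `j` (directly, or through vertices of type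
(ii)); and each vertex of type (ii) is connected inside `S e` to `z (a j)`. It is invariant under
`T ^ (s d)` (which shifts `k` by `s L` and `j` by `2 J`; `Offs z` is invariant), and not empty. `S 0`, `S 1` are
disjoint: the segments are in the intervals `[i (j + 1), i (j + 2))` (`i` is strictly increasing), which are
disjoint for different `j`. If a vertex of type (ii) belongs to `j` and to `k`, `j < k`, then
`Ear W z (a j) (i (k + 1))` with `a j < i j`, so `i (k + 1) ≤ i (j + 1)` by the maximality, a contradiction.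
`S_per` for `S 0` and `S 1` with `s d`. (`S_per` may be assumed.) -/
def S_ear3 : Prop := ∀ (V : Type) (W : V → V → ℤ) (T : Equiv.Perm V), Strip W T →
  ∀ (z : ℤ → V) (d : ℤ) (L : ℕ), Per W T z d L →
    ∀ (i a : ℤ → ℤ) (J s : ℕ), 1 ≤ J → 1 ≤ s → (∀ j, Ear W z (a j) (i (j + 1))) →
      (∀ j, i j ≤ a (j + 1) ∧ a (j + 1) < i (j + 1)) →
      (∀ j x y, x < i j → Ear W z x y → y ≤ i (j + 1)) →
      (∀ j, i (j + 2 * J) = i j + s * L) → (∀ j, a (j + 2 * J) = a j + s * L) →
        ∃ (z' z'' : ℤ → V) (d' d'' : ℤ) (L' L'' : ℕ), Per W T z' d' L' ∧ Per W T z'' d'' L'' ∧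
          ∀ i j, z' i ≠ z'' j

/-- (P7) **A cut vertex.** Proof. Otherwise `S_comp`, `S_ear1`, `S_ear2`, `S_ear3`, `S_twop` give `TT W`. (All of
them may be assumed.) -/
def S_ear : Prop := ∀ (V : Type) (W : V → V → ℤ) (c : ℝ) (T : Equiv.Perm V), Net W c → Strip W T →
  ¬ TT W → ∀ (z : ℤ → V) (d : ℤ) (L : ℕ), Per W T z d L →
    ∃ i : ℤ, ∀ a b, a < i → i < b → ¬ Ear W z a b

/-- (P8) **The left part.** Proof. Put `v = z i`, `Lf = {x | CI W {y | y ≠ v} (z (i - 1)) x}` (note
`z (i - 1) ≠ v`). (1) `v ∉ Lf` (the last step of a chain into `v` is not allowed; `z (i - 1) ≠ v`). (2) clear, `W` is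
symmetric. (4) Every `x ∈ Lf` is connected inside `Lf` to `z (i - 1)`, which is adjacent to `v`.
(5) Let `x ∉ Lf`, `x ≠ v`. Take a chain from `x` to `v` (`Strip.conn`) and cut it at the first occurrence of
`v`: by (2) membership in `Lf` is constant along its vertices before `v`, so none of them is in `Lf`.
(B) `z (i + 1) ∉ Lf`: a chain from `z (i - 1)` to `z (i + 1)` which avoids `v = z i` has a last vertex `z a` with
`a < i` and after it a first vertex `z b` with `b > i`; the vertices between are off `z`; so `Ear W z a b`.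
All `z k` with `k < i` are in `Lf`, those with `k > i` are not (connected to `z (i + 1)` avoiding `v`).
(3) Let `x` be given; for `0 ≤ r < d` take a chain from `(T ^ (-r)) x` to `z 0`. Applying `T ^ (-(d m))`, `m ≥ 0`, it
becomes a chain from `(T ^ (-(d m + r))) x` to `z (- m L)`; for large `m` it avoids `v` (each vertex of the
chain is mapped to `v` for at most one exponent, by freeness) and `- m L < i`. So `(T ^ (-n)) x ∈ Lf` for
all large `n`. In the same way `(T ^ n) x` is connected, avoiding `v`, to `z (m L)`, `m L > i`, so it is not in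
`Lf`. -/
def S_left : Prop := ∀ (V : Type) (W : V → V → ℤ) (T : Equiv.Perm V), Strip W T →
  ∀ (z : ℤ → V) (d : ℤ) (L : ℕ), Per W T z d L → 0 < d →
    ∀ i : ℤ, (∀ a b, a < i → i < b → ¬ Ear W z a b) → ∃ (v : V) (Lf : Set V),
      v ∉ Lf ∧ (∀ x y, W x y ≠ 0 → x ≠ v → y ≠ v → (x ∈ Lf ↔ y ∈ Lf)) ∧
      (∀ x, ∃ N : ℕ, ∀ n : ℕ, N ≤ n → (T ^ (-(n : ℤ))) x ∈ Lf ∧ (T ^ (n : ℤ)) x ∉ Lf) ∧
      (∀ x ∈ Lf, CI W (insert v Lf) x v) ∧ (∀ x ∉ Lf, CI W Lfᶜ x v)

/-- (P9) **The height.** Proof. Let `U` be the complement of `Lf` (`v ∈ U`). Write `T Lf` for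
`{x | (T⁻¹) x ∈ Lf}`; membership in `T Lf` is constant on edges between vertices `≠ T v` (invariance).
(a) `T v ∉ Lf`. Suppose `T v ∈ Lf`. Then `U` does not contain `T v`, and by (5) it is connected inside itself, so
membership in `T Lf` is constant on `U`. For large `n` the vertex `(T ^ n) v` is in `U` and not in `T Lf` (3). So
`U ∩ T Lf = ∅`, that is `x ∈ U → (T⁻¹) x ∈ U`. So `(T ^ (-n)) v ∈ U` for all `n ≥ 0`, contradiction to (3).
(b) `insert v Lf ⊆ T Lf`. It does not contain `T v` ((a), freeness), it is connected inside itself (4), so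
membership in `T Lf` is constant on it, and `(T ^ (-n)) v ∈ Lf ∩ T Lf` for large `n`.
So `x ∈ T ^ k Lf` (that is `(T ^ (-k)) x ∈ Lf`) implies `x ∈ T ^ (k + 1) Lf`; by (3) it is true for large `k` and
false for very negative `k`. Let `g x` be the largest `k` with `(T ^ (-k)) x ∉ Lf`. `g (T x) = g x + 1`.
`g v = 0`: `v ∉ Lf`, and `(T⁻¹) v ∈ Lf` by (b) for `v ∈ T Lf`. `const`: by (2) for the `T ^ k`-translates.
`nbr`: let `x` be adjacent to `v`; it is not in the orbit of `v` (`Strip.nad`). `v ∈ T Lf`, `x, v ≠ T v`, so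
`x ∈ T Lf`, `g x ≤ 0`. `v ∉ T⁻¹ Lf` (as `T⁻¹ Lf ⊆ Lf` by (b)) and `x, v ≠ T⁻¹ v`, so `x ∉ T⁻¹ Lf`, `g x ≥ -1`. -/
def S_nest : Prop := ∀ (V : Type) (W : V → V → ℤ) (T : Equiv.Perm V), Strip W T →
  ∀ (v : V) (Lf : Set V),
      v ∉ Lf → (∀ x y, W x y ≠ 0 → x ≠ v → y ≠ v → (x ∈ Lf ↔ y ∈ Lf)) →
      (∀ x, ∃ N : ℕ, ∀ n : ℕ, N ≤ n → (T ^ (-(n : ℤ))) x ∈ Lf ∧ (T ^ (n : ℤ)) x ∉ Lf) →
      (∀ x ∈ Lf, CI W (insert v Lf) x v) → (∀ x ∉ Lf, CI W Lfᶜ x v) →
        ∃ g : V → ℤ, Gap W T v g

/-- (P10) **Classification of strips.** Proof. If `V` is empty then `TT W` holds trivially. Otherwise `S_per` for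
`S = univ`, `s = 1` gives `z`, `d`, `L`; we may assume `d > 0` (replace `z` by `k ↦ z (-k)` and `d` by `-d`). If
`¬ TT W`, `S_ear` gives `i`, then `S_left` and `S_nest`. (All of them may be assumed.) -/
def S_class : Prop := ∀ (V : Type) (W : V → V → ℤ) (c : ℝ) (T : Equiv.Perm V), Net W c →
  Strip W T → TT W ∨ ∃ (v : V) (g : V → ℤ), Gap W T v g

end Pool.Agent.Q181.TG
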