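import Pool.Agent.Q181.TG.Stm1

set_option autoImplicit false

/-!
# Statements, part 2: the normal form of a matrix of norm less than `3 / √2`

`G` is a torsion-free group, `A` a matrix over `MonoidAlgebra ℤ G`. The vertices (`Vx G ι κ`), the graph
(`gr A`), the translations (`mv g`), the stabilisers (`stab A b`, cyclic by `TH57.Thr.stab_cyclic`), `bs`, `ix`,
`ge`, `mem_stab`, `reachable_mv`, `mv_free`, `mv_ge_bs`, `nbr_row` are those of
`Pool/Agent/TH57/Thr/Struct.lean`, the integral weights `wz A` (with `wz_symm`, `wz_mv`, `wz_cast`) those of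
`Pool/Agent/Q181/BD/Stm3.lean`; `S_net` of that file is proved (`Pool/Agent/Q181/BD/Fin.lean`, `f_net` or
`Pool.Agent.Q249.BD.t_net`).
-/

namespace Pool.Agent.Q181.TG

open Pool.Agent.Q181.BD TH57.Thr

section defs

variable {G : Type} [Group G] {ι κ : Type} [Fintype ι] [Fintype κ]

/-- class `b` of finite type: after the change of bases by `u` the entries are integers -/
def Fi (A : Matrix ι κ (MonoidAlgebra ℤ G)) (ρ : ι ⊕ κ → ι ⊕ κ) (u : ι ⊕ κ → G) (b : ι ⊕ κ) : Prop :=
  ∀ i j h, ρ (Sum.inl i) = b → (A i j).coeff h ≠ 0 → u (Sum.inl i) * h = u (Sum.inr j)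

open Classical in
/-- class `b` of torus type: `A A* = 4`, `A* A = 4` -/
def To (A : Matrix ι κ (MonoidAlgebra ℤ G)) (ρ : ι ⊕ κ → ι ⊕ κ) (b : ι ⊕ κ) : Prop :=
  (∀ i i' g, ρ (Sum.inl i) = b →
    ∑ j, (A i j).coeff.sum (fun h x => x * (A i' j).coeff (g⁻¹ * h)) =
      if i = i' ∧ g = 1 then 4 else 0) ∧
  ∀ j j' g, ρ (Sum.inr j) = b →
    ∑ i, (A i j).coeff.sum (fun h x => x * (A i j').coeff (h * g)) =
      if j = j' ∧ g = 1 then 4 else 0

/-- class `b` of row type: the entries are integers, except for the row `v`, whose entries are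
combinations of `1` and `s⁻¹` -/
def Ro (A : Matrix ι κ (MonoidAlgebra ℤ G)) (ρ : ι ⊕ κ → ι ⊕ κ) (u s : ι ⊕ κ → G) (b : ι ⊕ κ)
    (v : ι) : Prop :=
  s b ≠ 1 ∧ ρ (Sum.inl v) = b ∧ ∀ i j h, ρ (Sum.inl i) = b → (A i j).coeff h ≠ 0 →
    (i ≠ v → u (Sum.inl i) * h = u (Sum.inr j)) ∧
    (i = v → u (Sum.inl i) * h = u (Sum.inr j) ∨ s b * (u (Sum.inl i) * h) = u (Sum.inr j))

/-- class `b` of column type: the entries are integers, except for the column `v`, whose entries are
combinations of `1` and `s` -/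
def Co (A : Matrix ι κ (MonoidAlgebra ℤ G)) (ρ : ι ⊕ κ → ι ⊕ κ) (u s : ι ⊕ κ → G) (b : ι ⊕ κ)
    (v : κ) : Prop :=
  s b ≠ 1 ∧ ρ (Sum.inr v) = b ∧ ∀ i j h, ρ (Sum.inl i) = b → (A i j).coeff h ≠ 0 →
    (j ≠ v → u (Sum.inl i) * h = u (Sum.inr j)) ∧
    (j = v → u (Sum.inl i) * h = u (Sum.inr j) ∨ u (Sum.inl i) * h = s b * u (Sum.inr j))

/-- the normal form: the blocks (classes of rows and columns) are of the four types -/
structure NF (A : Matrix ι κ (MonoidAlgebra ℤ G)) (ρ : ι ⊕ κ → ι ⊕ κ) (u s : ι ⊕ κ → G) : Prop where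
  same : ∀ i j h, (A i j).coeff h ≠ 0 → ρ (Sum.inl i) = ρ (Sum.inr j)
  cls : ∀ b, Fi A ρ u b ∨ To A ρ b ∨ (∃ v, Ro A ρ u s b v) ∨ ∃ v, Co A ρ u s b v

end defs

/-- (N1) **Components.** Let `b` be a vertex whose stabiliser is generated by `s ≠ 1`, and `V` the type of
the vertices reachable from `b`, with the restricted weights and the permutation `v ↦ mv s v`. Then this is
a net and a strip. Proof. Net: from `Net (wz A) c'` (`S_net`) by mapping finite sets and functions along the
inclusion. `free`: `mv (s ^ n) v = v` gives `s ^ n = 1` (`mv_free`), so `n = 0` (`G` is torsion-free). `cof`: for every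
index (`ix v`) choose one vertex of `V` with this index if there is one; two vertices of `V` with the same
index differ by an element of `stab A b` (see the end of the proof of `stab_cyclic`), a power of `s`.
`conn`: `gr A`-reachability is reachability along `wz A ≠ 0` (`wz_cast`). `nad`: `mv` preserves the side
(`Sum.inl`, `Sum.inr`). `fin`: `nbr_row`. -/
def S_cmp : Prop := ∀ (G : Type) [Group G], (∀ g : G, ∀ k : ℕ, 0 < k → g ^ k = 1 → g = 1) →
  ∀ (ι κ : Type) [Fintype ι] [Fintype κ] [DecidableEq ι] [DecidableEq κ]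
    (A : Matrix ι κ (MonoidAlgebra ℤ G)) (c : ℝ), Net (wz A) c → ∀ (b : Vx G ι κ) (s : G), s ≠ 1 →
      stab A b = Subgroup.zpowers s →
        ∃ T : Equiv.Perm {v : Vx G ι κ // (gr A).Reachable b v}, (∀ v, (T v).1 = mv s v.1) ∧
          Net (fun u v : {v : Vx G ι κ // (gr A).Reachable b v} => wz A u.1 v.1) c ∧
          Strip (fun u v : {v : Vx G ι κ // (gr A).Reachable b v} => wz A u.1 v.1) T

/-- (N2) **Normal form.** Proof. `c' = max c 1`, `Net (wz A) c'` (`S_net`), `stab_cyclic` (`max c 1` again).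
As in the proof of `structure_thm` choose representatives `ρ p` of the indices and `u₀ p : G` with
`Reachable (bs (ρ p)) (mv (u₀ p) (bs p))`, and let `s b` be a generator of `stab A (bs b)`. The edges: if
`(A i j).coeff h ≠ 0` then `ρ (inl i) = ρ (inr j) = b`, and `mv (u₀ i) (bs i)` and
`mv (u₀ i * h) (bs j) = mv (k) (mv (u₀ j) (bs j))`, `k = u₀ i * h * (u₀ j)⁻¹ ∈ stab A (bs b)`, are adjacent.
If `s b = 1` then `k = 1`: the class `b` is `Fi` with `u = u₀`. If `s b ≠ 1` apply `S_cmp` and `S_class` to the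
component of `bs b`.
`TT`: the class is `To` (`u = (1, i)`, `u' = (g, i')` for the rows, translated into the component by
`wz_mv`; if `u'` is not in the component of `u` then there is no common neighbour and both sides are `0`, and
if `i'` is not in the class `b` then too; the columns in the same way).
`Gap` with `v`, `g`: for an index `p` of the class change `u₀ p` to `u p = (s b) ^ m * u₀ p` such that
`g (mv (u p) (bs p)) = 0` (and `mv (u p) (bs p) = v` for `p = ix v`, which is possible as all the vertices of the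
component with the index `p` differ by powers of `s b`). For an edge as above, now with `u`, `k = s ^ n` and
`g (mv k (mv (u j) (bs j))) = n`. If neither `i` nor `j` is `ix v` then `n = 0` by `const`, so `u i * h = u j`. If
`ix v = inl i` then `nbr` says `n = 0` or `n = -1` (type `Ro`). If `ix v = inr j` then translate the edge by
`s ^ (-n)`: `g (mv (s ^ (-n)) (mv (u i) (bs i))) = -n ∈ {0, -1}`, so `n = 0` or `n = 1` (type `Co`). Both cannot
happen. (`S_cmp`, `S_class`, `S_net` may be assumed.) -/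
def S_nf : Prop := ∀ (G : Type) [Group G], (∀ g : G, ∀ k : ℕ, 0 < k → g ^ k = 1 → g = 1) →
  ∀ (ι κ : Type) [Fintype ι] [Fintype κ] [DecidableEq ι] [DecidableEq κ]
    (A : Matrix ι κ (MonoidAlgebra ℤ G)) (c : ℝ), 0 ≤ c → c < 3 / Real.sqrt 2 → NormLE A c →
      ∃ (ρ : ι ⊕ κ → ι ⊕ κ) (u s : ι ⊕ κ → G), NF A ρ u s

end Pool.Agent.Q181.TG
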