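import Pool.Agent.Q181.TG.Stm2

set_option autoImplicit false

/-!
# Statements, part 3: growth of the torsion of cokernels

`tc E` is the order of the torsion subgroup of the abelian group `E`, `Cok M` the cokernel of an integral
matrix acting on row vectors from the right. All groups of interest are finitely generated, so `tc` is
finite and at least `1`.
-/

namespace Pool.Agent.Q181.TG

open Matrix Filter Topology

/-- the order of the torsion subgroup -/
noncomputable def tc (E : Type) [AddCommGroup E] : ℕ := Nat.card (AddCommGroup.torsion E)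

/-- the cokernel of an integral matrix acting on row vectors: `ℤ^β` modulo the subgroup spanned by the
rows of `M` (see `cok_range` for `LinearMap.range M.vecMulLinear`) -/
abbrev Cok {α β : Type} (M : Matrix α β ℤ) : Type :=
  (β → ℤ) ⧸ Submodule.span ℤ (Set.range M)

theorem cok_range {α β : Type} [Fintype α] (M : Matrix α β ℤ) :
    LinearMap.range M.vecMulLinear = Submodule.span ℤ (Set.range M) := by
  rw [_root_.range_vecMulLinear]
  rfl

open Classical in
/-- the subgroup generated by the `ξ_x + η_(σ x)` -/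
noncomputable def Qr (X : Type) (σ : X → X) {E : Type} [AddCommGroup E] (ξ η : E) :
    AddSubgroup (X → E) :=
  AddSubgroup.closure (Set.range fun x => (Pi.single x ξ + Pi.single (σ x) η : X → E))

/-- the group of the functions `X → E` modulo the relations `ξ_x + η_(σ x) = 0` -/
abbrev Qt (X : Type) (σ : X → X) {E : Type} [AddCommGroup E] (ξ η : E) : Type :=
  (X → E) ⧸ Qr X σ ξ η

/-- the order of the torsion for a cycle of length `m` -/
noncomputable def tm {E : Type} [AddCommGroup E] (ξ η : E) (m : ℕ) : ℕ :=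
  tc (Qt (ZMod m) (fun j => j + 1) ξ η)

section reg

variable {G : Type} [Group G] {ι κ : Type}

open Classical in
/-- the integral matrix by which `A` acts on the chains with values in the permutation module of the
`G`-set `X` -/
noncomputable def reg (X : Type) [MulAction G X] (A : Matrix ι κ (MonoidAlgebra ℤ G)) :
    Matrix (X × ι) (X × κ) ℤ := fun p q =>
  (A p.2 q.2).coeff.sum fun h x => if h • q.1 = p.1 then x else 0

/-- the block of the class `b` -/
noncomputable def blk [DecidableEq ι] [DecidableEq κ] (A : Matrix ι κ (MonoidAlgebra ℤ G))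
    (ρ : ι ⊕ κ → ι ⊕ κ) (b : ι ⊕ κ) (X : Type) [MulAction G X] :
    Matrix {p : X × ι // ρ (Sum.inl p.2) = b} {q : X × κ // ρ (Sum.inr q.2) = b} ℤ :=
  (reg X A).submatrix (fun p => p.1) (fun q => q.1)

/-- the `G`-sets `X n` converge to the free action: the proportion of the fixed points of every
`g ≠ 1` tends to zero -/
def Far (G : Type) [Group G] (X : ℕ → Type) [∀ n, MulAction G (X n)] : Prop :=
  ∀ g : G, g ≠ 1 →
    Tendsto (fun n => (Nat.card {x : X n // g • x = x} : ℝ) / Nat.card (X n)) atTop (𝓝 0)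

/-- the torsion of the cokernel of the block `b` grows like `K ^ |X|` -/
def Grow [Fintype ι] [Fintype κ] [DecidableEq ι] [DecidableEq κ]
    (A : Matrix ι κ (MonoidAlgebra ℤ G)) (ρ : ι ⊕ κ → ι ⊕ κ) (b : ι ⊕ κ) (K : ℕ) : Prop :=
  ∀ (X : ℕ → Type) [∀ n, Fintype (X n)] [∀ n, Nonempty (X n)] [∀ n, MulAction G (X n)], Far G X →
    Tendsto (fun n => Real.log (tc (Cok (blk A ρ b (X n)))) / Nat.card (X n)) atTop
      (𝓝 (Real.log K))

end reg

/-- (T1) **Invariance and positivity.** `tc` is invariant under isomorphisms; it is at least one for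
finitely generated groups, in particular for cokernels and for `Qt X σ ξ η`, `X` finite, `E` finitely
generated; it is multiplicative for finite products; permutations of rows and columns do not change
`tc (Cok M)`. -/
def S_tc : Prop :=
  (∀ (E E' : Type) [AddCommGroup E] [AddCommGroup E'], Nonempty (E ≃+ E') → tc E = tc E') ∧
  (∀ (E : Type) [AddCommGroup E] [AddGroup.FG E], 1 ≤ tc E) ∧
  (∀ (α β : Type) [Finite β] (M : Matrix α β ℤ), 1 ≤ tc (Cok M)) ∧
  (∀ (X E : Type) [Finite X] (σ : X → X) [AddCommGroup E] [AddGroup.FG E] (ξ η : E),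
    1 ≤ tc (Qt X σ ξ η)) ∧
  (∀ (B : Type) [Fintype B] (E : B → Type) [∀ b, AddCommGroup (E b)],
    tc (∀ b, E b) = ∏ b, tc (E b)) ∧
  ∀ (α β α' β' : Type) (e : α' ≃ α) (f : β' ≃ β) (M : Matrix α β ℤ),
    tc (Cok (M.submatrix e f)) = tc (Cok M)

/-- (T2) **Blocks.** Proof: the functions `β → ℤ` are the families of functions on the fibres of `r'`, and
the row number `a` has its support in the fibre of `r a`; so `Cok M` is isomorphic to the product of the
cokernels of the blocks. (`S_tc` may be assumed.) -/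
def S_blk : Prop := ∀ (α β B : Type) [Finite β] [Fintype B] [DecidableEq B]
  (M : Matrix α β ℤ) (r : α → B) (r' : β → B), (∀ a b, M a b ≠ 0 → r a = r' b) →
    tc (Cok M) = ∏ b, tc (Cok (M.submatrix (fun a : {a // r a = b} => a.1)
      (fun x : {x // r' x = b} => x.1)))

/-- (T3) **Integral matrices.** `S_blk` with `B = X`. (`S_tc`, `S_blk` may be assumed.) -/
def S_fin : Prop := ∀ (X I J : Type) [Fintype X] [DecidableEq X] [Finite J]
  (D : Matrix I J ℤ) (M : Matrix (X × I) (X × J) ℤ),
    (∀ x y i j, M (x, i) (y, j) = if y = x then D i j else 0) →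
      tc (Cok M) = tc (Cok D) ^ Fintype.card X

/-- (T4) **Torus type.** Proof: comparing traces, `4 |α| = 4 |β|`; take a bijection `e` of `α` and `β` and
permute the columns; `det M ^ 2 = 4 ^ |α|`, so `Cok M` is finite of order `|det M| = 2 ^ |α|`
(`Submodule.natAbs_det_equiv` or `natAbs_det_basis_change`). (`S_tc` may be assumed.) -/
def S_torus : Prop := ∀ (α β : Type) [Fintype α] [Fintype β] [DecidableEq α] [DecidableEq β]
  (M : Matrix α β ℤ), M * M.transpose = 4 → M.transpose * M = 4 → tc (Cok M) = 2 ^ Fintype.card α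

/-- (T5) **One special row.** Proof: let `E` be the cokernel of the rows different from `v` of `D`. The
map `(X × J → ℤ) → (X → E)` is surjective and its kernel is generated by the rows `(x, i)`, `i ≠ v`, of `M`;
the row `(x, v)` is mapped to `ξ_x + η_(σ x)`. So `Cok M` is isomorphic to `Qt X σ ξ η`. (`S_tc` may be
assumed.) -/
def S_row : Prop := ∀ (X I J : Type) [Finite X] [DecidableEq X] [DecidableEq I]
  [Finite J] (D : Matrix I J ℤ) (v : I) (a b : J → ℤ) (σ : Equiv.Perm X)
  (M : Matrix (X × I) (X × J) ℤ), (∀ x y i j, M (x, i) (y, j) =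
    if i = v then (if y = x then a j else 0) + (if y = σ x then b j else 0)
    else if y = x then D i j else 0) →
      tc (Cok M) = tc (Qt X σ
        (Submodule.Quotient.mk a : Cok (D.submatrix (fun i : {i // i ≠ v} => i.1) id))
        (Submodule.Quotient.mk b))

/-- (T6) **One special column.** Proof: let `E` be the cokernel of `D'`, whose columns are those of `D`
different from `v`, and `a` (index `inr false`) and `b` (index `inr true`). In `Cok M` write `α_x` for the basis
element `(x, v)` and introduce new generators `β_x` with `β_x = α_(σ x)`. The relation of the row `(x, i)`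
becomes the row `i` of `D'` at `x`. So `Cok M` is `X → E` modulo the relations `β_x - α_(σ x) = 0`. (`S_tc` may
be assumed.) -/
def S_col : Prop := ∀ (X I J : Type) [Finite X] [DecidableEq X] [Finite J] [DecidableEq J] (D : Matrix I J ℤ) (v : J) (a b : I → ℤ) (σ : Equiv.Perm X)
  (M : Matrix (X × I) (X × J) ℤ), (∀ x y i j, M (x, i) (y, j) =
    if j = v then (if y = x then a i else 0) + (if y = σ x then b i else 0)
    else if y = x then D i j else 0) →
      ∀ D' : Matrix I ({j // j ≠ v} ⊕ Bool) ℤ,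
        (D' = fun i => Sum.elim (fun j => D i j.1) (fun t => if t then b i else a i)) →
        tc (Cok M) = tc (Qt X σ
          (Submodule.Quotient.mk (Pi.single (Sum.inr true) 1) : Cok D')
          (Submodule.Quotient.mk (-Pi.single (Sum.inr false) 1)))

/-- (T7) **Cycles.** Proof: `X` is the disjoint union of the cycles `o` of `σ` (quotient by
`Equiv.Perm.SameCycle`), the cycle of `x` is in bijection with `ZMod (minimalPeriod σ x)` by `n ↦ (σ ^ n) x`,
and `σ` becomes `n ↦ n + 1`. The relations respect the decomposition, so `tc (Qt X σ ξ η)` is the product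
over the cycles of the `tm ξ η ℓ`, `ℓ` the length (`S_tc`). Take logarithms; each cycle has `ℓ` elements.
(`S_tc` may be assumed.) -/
def S_cyc : Prop := ∀ (X : Type) [Fintype X] (σ : Equiv.Perm X) (E : Type) [AddCommGroup E]
  [AddGroup.FG E] (ξ η : E), Real.log (tc (Qt X σ ξ η)) =
    ∑ x, Real.log (tm ξ η (Function.minimalPeriod σ x)) / Function.minimalPeriod σ x

/-- (T8) **Averages.** Proof: `|f m / m| ≤ C` for all `m`. Given `ε > 0` take `M` such that
`|f m / m - lam| < ε` for `m ≥ M`. The `x` with `minimalPeriod (σ n) x < M` are fixed by some `(σ n) ^ k`,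
`1 ≤ k < M` (the minimal period is positive since `X n` is finite), so their proportion tends to zero, and
their contribution to the average is at most `(C + |lam|)` times it. -/
def S_avg : Prop := ∀ (f : ℕ → ℝ) (lam : ℝ), Tendsto (fun m : ℕ => f m / m) atTop (𝓝 lam) →
  ∀ (X : ℕ → Type) [∀ n, Fintype (X n)] [∀ n, Nonempty (X n)] (σ : ∀ n, Equiv.Perm (X n)),
    (∀ k : ℕ, 1 ≤ k → Tendsto (fun n => (Nat.card {x : X n // (σ n ^ k) x = x} : ℝ)
      / Nat.card (X n)) atTop (𝓝 0)) →
    Tendsto (fun n => (∑ x, f (Function.minimalPeriod (σ n) x) / Function.minimalPeriod (σ n) x)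
      / Nat.card (X n)) atTop (𝓝 lam)

/-- (T9) **Growth for cycles.** See part 4. -/
def S_grow : Prop := ∀ (E : Type) [AddCommGroup E] [AddGroup.FG E] (ξ η : E),
  ∃ K : ℕ, 1 ≤ K ∧ Tendsto (fun m : ℕ => Real.log (tm ξ η m) / m) atTop (𝓝 (Real.log K))

/-- (T10) **Growth for permutations.** `S_cyc`, `S_avg`, `S_grow`. (They may be assumed.) -/
def S_perm : Prop := ∀ (E : Type) [AddCommGroup E] [AddGroup.FG E] (ξ η : E),
  ∃ K : ℕ, 1 ≤ K ∧ ∀ (X : ℕ → Type) [∀ n, Fintype (X n)] [∀ n, Nonempty (X n)]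
    (σ : ∀ n, Equiv.Perm (X n)),
    (∀ k : ℕ, 1 ≤ k → Tendsto (fun n => (Nat.card {x : X n // (σ n ^ k) x = x} : ℝ)
      / Nat.card (X n)) atTop (𝓝 0)) →
    Tendsto (fun n => Real.log (tc (Qt (X n) (σ n) ξ η)) / Nat.card (X n)) atTop
      (𝓝 (Real.log K))

/-- (T11) **Classes of finite type.** Proof: the bijections `(x, i) ↦ (u i • x, i)` of the rows and
`(y, j) ↦ (u j • y, j)` of the columns transform `blk A ρ b X` into a matrix as in `S_fin`, with
`D i j = (A i j).coeff ((u i)⁻¹ * u j)`: `h • y = x` with `u i * h = u j` means `u j • y = u i • x`. So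
`K = tc (Cok D)`. (`S_tc`, `S_fin` may be assumed.) -/
def S_cfi : Prop := ∀ (G : Type) [Group G] (ι κ : Type) [Fintype ι] [Fintype κ] [DecidableEq ι]
  [DecidableEq κ] (A : Matrix ι κ (MonoidAlgebra ℤ G)) (ρ : ι ⊕ κ → ι ⊕ κ) (u : ι ⊕ κ → G)
  (b : ι ⊕ κ), (∀ i j h, (A i j).coeff h ≠ 0 → ρ (Sum.inl i) = ρ (Sum.inr j)) → Fi A ρ u b →
    ∃ K : ℕ, 1 ≤ K ∧ Grow A ρ b K

/-- (T12) **Classes of torus type.** Proof: `M = blk A ρ b X` satisfies `M Mᵀ = 4`, `Mᵀ M = 4`: the entry of
`M Mᵀ` at `(x, i)`, `(x', i')` is the sum over `j`, `h`, `h'` with `h⁻¹ • x = h'⁻¹ • x'` of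
`(A i j).coeff h * (A i' j).coeff h'`; sort by `g = h * h'⁻¹` (`g⁻¹ * h = h'`, `g • x' = x`) and use `To` (all
columns `j` with a nonzero entry in the row `i` are in the class). So `K = 2 ^ r`, `r` the number of rows of
the class. (`S_torus` may be assumed.) -/
def S_cto : Prop := ∀ (G : Type) [Group G] (ι κ : Type) [Fintype ι] [Fintype κ] [DecidableEq ι]
  [DecidableEq κ] (A : Matrix ι κ (MonoidAlgebra ℤ G)) (ρ : ι ⊕ κ → ι ⊕ κ)
  (b : ι ⊕ κ), (∀ i j h, (A i j).coeff h ≠ 0 → ρ (Sum.inl i) = ρ (Sum.inr j)) → To A ρ b →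
    ∃ K : ℕ, 1 ≤ K ∧ Grow A ρ b K

/-- (T13) **Classes of row type.** Proof: after the bijections of `S_cfi` the block is as in `S_row` with
`σ x = s b • x`, `D i j = (A i j).coeff ((u i)⁻¹ * u j)`, `a j = (A v j).coeff ((u v)⁻¹ * u j)`,
`b j = (A v j).coeff ((u v)⁻¹ * (s b)⁻¹ * u j)` (two different elements, as `s b ≠ 1`): `h • y = x` with
`s * u v * h = u j` means `u j • y = s • u v • x`. `S_perm`; the fixed points of `σ ^ k` are those of
`(s b) ^ k ≠ 1`. (`S_tc`, `S_row`, `S_perm` may be assumed.) -/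
def S_cro : Prop := ∀ (G : Type) [Group G], (∀ g : G, ∀ k : ℕ, 0 < k → g ^ k = 1 → g = 1) →
  ∀ (ι κ : Type) [Fintype ι] [Fintype κ] [DecidableEq ι]
  [DecidableEq κ] (A : Matrix ι κ (MonoidAlgebra ℤ G)) (ρ : ι ⊕ κ → ι ⊕ κ) (u s : ι ⊕ κ → G)
  (b : ι ⊕ κ) (v : ι), (∀ i j h, (A i j).coeff h ≠ 0 → ρ (Sum.inl i) = ρ (Sum.inr j)) →
    Ro A ρ u s b v → ∃ K : ℕ, 1 ≤ K ∧ Grow A ρ b K

/-- (T14) **Classes of column type.** Proof: as `S_cro`, with `S_col`, `σ x = (s b)⁻¹ • x`,
`a i = (A i v).coeff ((u i)⁻¹ * u v)`, `b i = (A i v).coeff ((u i)⁻¹ * s b * u v)`. (`S_tc`, `S_col`, `S_perm`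
may be assumed.) -/
def S_cco : Prop := ∀ (G : Type) [Group G], (∀ g : G, ∀ k : ℕ, 0 < k → g ^ k = 1 → g = 1) →
  ∀ (ι κ : Type) [Fintype ι] [Fintype κ] [DecidableEq ι]
  [DecidableEq κ] (A : Matrix ι κ (MonoidAlgebra ℤ G)) (ρ : ι ⊕ κ → ι ⊕ κ) (u s : ι ⊕ κ → G)
  (b : ι ⊕ κ) (v : κ), (∀ i j h, (A i j).coeff h ≠ 0 → ρ (Sum.inl i) = ρ (Sum.inr j)) →
    Co A ρ u s b v → ∃ K : ℕ, 1 ≤ K ∧ Grow A ρ b K

/-- (T15) **The main theorem.** Proof: `S_blk` for `reg X A`, `r (x, i) = ρ (inl i)`, `r' (y, j) = ρ (inr j)`;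
`K` is the product of the `K b` of `S_cfi`, `S_cto`, `S_cro`, `S_cco`. (They may be assumed, and `S_tc`.) -/
def S_main : Prop := ∀ (G : Type) [Group G], (∀ g : G, ∀ k : ℕ, 0 < k → g ^ k = 1 → g = 1) →
  ∀ (ι κ : Type) [Fintype ι] [Fintype κ] [DecidableEq ι]
  [DecidableEq κ] (A : Matrix ι κ (MonoidAlgebra ℤ G)) (ρ : ι ⊕ κ → ι ⊕ κ) (u s : ι ⊕ κ → G),
    NF A ρ u s → ∃ K : ℕ, 1 ≤ K ∧
      ∀ (X : ℕ → Type) [∀ n, Fintype (X n)] [∀ n, Nonempty (X n)] [∀ n, MulAction G (X n)],
        Far G X → Tendsto (fun n => Real.log (tc (Cok (reg (X n) A))) / Nat.card (X n)) atTop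
          (𝓝 (Real.log K))

/-- (T16) **Homology.** Proof: the homology `H = ker N / im M` is a subgroup of `Cok M` and the quotient
`Cok M / H` is isomorphic to the image of `N`, which is torsion-free; so `H` contains the torsion. -/
def S_hom : Prop := ∀ (α β γ : Type) [Fintype β] (M : Matrix α β ℤ)
  (N : Matrix β γ ℤ), M * N = 0 →
    tc (LinearMap.ker N.vecMulLinear ⧸
      (Submodule.span ℤ (Set.range M)).submoduleOf (LinearMap.ker N.vecMulLinear)) = tc (Cok M)

/-- (T17) **Normal chains.** Proof: `g` has no fixed points on `G ⧸ N n` if `g ∉ N n` (normality), which is the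
case for all large `n`. -/
def S_chain : Prop := ∀ (G : Type) [Group G] (N : ℕ → Subgroup G), (∀ n, (N n).Normal) →
  (∀ n, (N n).FiniteIndex) → Antitone N → ⨅ n, N n = ⊥ → Far G (fun n => G ⧸ N n)

end Pool.Agent.Q181.TG
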