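import Pool.Agent.Q181.TG.Stm3

set_option autoImplicit false

/-!
# Statements, part 4: growth of the torsion for cycles

`tm ξ η m` is the order of the torsion of `E ^ m / (ξ_j + η_(j+1), j ∈ ZMod m)`, `E` a finitely generated
abelian group. Let `R = Qr (ZMod m) (· + 1) ξ η`. Its elements are the `φ c = ∑ j, c j • (ξ_j + η_(j+1))`, for
integral `c`; the coefficient of `φ c` at `j` is `c j • ξ + c (j - 1) • η`.
-/

namespace Pool.Agent.Q181.TG

open Matrix Filter Topology

/-- (W1) **Closed walks in a group relation.** Proof. Let `w m y` be the number of the walks `c 0, …, c m`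
(`(c k, c (k + 1)) ∈ Λ`) with `c m = y`. The walks of length `m` form a group, `c ↦ c m` is a homomorphism with
image `D m`, so `w m y = n m` for `y ∈ D m` and `0` otherwise. `D (m + 1) ⊆ D m` (induction, `D 0 = F`), so
`D m = D` for `m ≥ m₀`. For `y ∈ D (m + 1)` the set of the `x ∈ D m` with `(x, y) ∈ Λ` is a coset of
`{x ∈ D m | (x, 0) ∈ Λ}`; so for `m ≥ m₀`, `n (m + 1) = K * n m` with `K = |{x ∈ D | (x, 0) ∈ Λ}| ≥ 1`, and the
number of all walks is `W m = n m * |D| = C * K ^ m`. The closed walks are the kernel of the homomorphism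
`c ↦ c m - c 0`, so their number `P m` satisfies `W m / |F| ≤ P m ≤ W m`. For `m ≥ 1` they are the functions
on `ZMod m` of the statement. -/
def S_walk : Prop := ∀ (F : Type) [AddCommGroup F] [Finite F] (Λ : AddSubgroup (F × F)),
  ∃ K : ℕ, 1 ≤ K ∧ Tendsto (fun m : ℕ => Real.log (Nat.card {c : ZMod m → F //
    ∀ j, (c j, c (j + 1)) ∈ Λ}) / m) atTop (𝓝 (Real.log K))

/-- (W2) **Torsion of a quotient.** Let `T` be the torsion subgroup of `E`. Proof: the kernel of the map from
the torsion of `E / R` to the torsion of `(E / T) / R̄` is `(T + R) / R ≅ T / (T ∩ R)`, and it is surjective: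
if `N y ∈ R + T` then `|T| N y ∈ R`. -/
def S_ext : Prop := ∀ (E : Type) [AddCommGroup E] [AddGroup.FG E] (R : AddSubgroup E),
  tc (E ⧸ R) * Nat.card (R ⊓ AddCommGroup.torsion E : AddSubgroup E) =
    tc E * tc ((E ⧸ AddCommGroup.torsion E) ⧸
      R.map (QuotientAddGroup.mk' (AddCommGroup.torsion E)))

/-- (W3) **Splitting off the torsion.** Proof: `S_ext` for `ZMod m → E`, whose torsion is
`ZMod m → torsion E` and whose quotient by it is `ZMod m → E ⧸ torsion E`. (`S_tc`, `S_ext` may be
assumed.) -/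
def S_split : Prop := ∀ (E : Type) [AddCommGroup E] [AddGroup.FG E] (ξ η : E) (m : ℕ), 1 ≤ m →
  tm ξ η m * Nat.card (Qr (ZMod m) (fun j => j + 1) ξ η ⊓ AddCommGroup.torsion (ZMod m → E) :
      AddSubgroup (ZMod m → E)) =
    tc E ^ m * tm (QuotientAddGroup.mk ξ : E ⧸ AddCommGroup.torsion E)
      (QuotientAddGroup.mk η) m

/-- (W4) **The intersection is small.** Proof: `φ c` is a torsion element iff
`c j • ξ + c (j - 1) • η` is one for all `j`. If `ξ` is not a torsion element then `c j` is determined by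
`c (j - 1)`, so `c ↦ c 0` is injective on the group of these `c`, which is therefore cyclic; so the
intersection is cyclic, and its exponent divides `tc E`. If `ξ` is a torsion element and `η` is not then
`c = 0`. -/
def S_small : Prop := ∀ (E : Type) [AddCommGroup E] [AddGroup.FG E] (ξ η : E) (m : ℕ), 1 ≤ m →
  ¬ (ξ ∈ AddCommGroup.torsion E ∧ η ∈ AddCommGroup.torsion E) →
    Nat.card (Qr (ZMod m) (fun j => j + 1) ξ η ⊓ AddCommGroup.torsion (ZMod m → E) :
      AddSubgroup (ZMod m → E)) ≤ tc E

/-- (W5) **Both are torsion elements.** Proof: let `T` be the torsion, `N = tc E = |T|`. By `S_split`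
(the intersection is `R`, and `tm 0 0 m = 1` as `E ⧸ T` is torsion-free) `tm ξ η m * |R| = N ^ m`. The
homomorphism `φ` from `ZMod m → ZMod N` onto `R` has the kernel `{c | ∀ j, c j • ξ + c (j - 1) • η = 0}`, so
`tm ξ η m` is the order of this kernel, and `S_walk` applies with `F = ZMod N`,
`Λ = {(c', c) | c • ξ + c' • η = 0}`. (`S_split`, `S_walk` may be assumed.) -/
def S_g0 : Prop := ∀ (E : Type) [AddCommGroup E] [AddGroup.FG E] (ξ η : E),
  ξ ∈ AddCommGroup.torsion E → η ∈ AddCommGroup.torsion E →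
    ∃ K : ℕ, 1 ≤ K ∧ Tendsto (fun m : ℕ => Real.log (tm ξ η m) / m) atTop (𝓝 (Real.log K))

/-- (W6) **Independent elements of a free group.** Proof: there is `N ≥ 1` (a nonzero minor) such that
`p ξ + q η` integral, `p`, `q` rational, implies `N p`, `N q` integral. If `y` is integral and
`k y ∈ R`, `k ≥ 1`, then `y = ∑ q j (ξ_j + η_(j+1))` with unique rational `q j`, and `c j = N q j` are
integers with `c j ξ + c (j - 1) η ∈ N ℤ^r` for all `j`; `y ∈ R` iff `N` divides all the `c j`; and every such
`c` comes from `y j = (c j ξ + c (j - 1) η) / N`. So the torsion of the quotient is isomorphic to the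
group of the `c : ZMod m → ZMod N` with `c j ξ + c (j - 1) η = 0` modulo `N`. `S_walk` with `F = ZMod N`.
(`S_walk` may be assumed.) -/
def S_g1 : Prop := ∀ (r : ℕ) (ξ η : Fin r → ℤ),
  (∀ a b : ℤ, a • ξ + b • η = 0 → a = 0 ∧ b = 0) →
    ∃ K : ℕ, 1 ≤ K ∧ Tendsto (fun m : ℕ => Real.log (tm ξ η m) / m) atTop (𝓝 (Real.log K))

/-- (W7) **Binomials.** Proof: let `m ≥ 2`. If `|a| ≠ |b|` the quotient is finite of order
`|det (a + b P)| = |a ^ m - (-b) ^ m|`, `P` the cyclic permutation matrix (only the identity and the cycle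
contribute to the determinant), and `log |a ^ m - (-b) ^ m| / m → log max (|a|, |b|)`. If `|a| = |b| ≥ 1`: if
`b = a` and `m` is odd the order is `2 |a| ^ m` in the same way. If `b = - a`, or `b = a` and `m` is even (replace
the basis by `(-1) ^ j e_j`), the subgroup is `a` times the subgroup generated by the `e_j - e_(j+1)`, which
is the group of the vectors with sum `0`, a direct summand of rank `m - 1`; so the order of the torsion is
`|a| ^ (m - 1)`. -/
def S_bin : Prop := ∀ a b : ℤ, ¬ (a = 0 ∧ b = 0) →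
  Tendsto (fun m : ℕ => Real.log (tm a b m) / m) atTop
    (𝓝 (Real.log (max a.natAbs b.natAbs : ℕ)))

/-- (W8) **Dependent elements of a free group.** Proof: there are a vector `e` which is part of a basis of
`ℤ^r` and integers `a`, `b` with `ξ = a e`, `η = b e`. So `Qt` for `ℤ^r` is the product of `Qt` for `ℤ`, `a`, `b` and
of the free group `(ℤ^(r-1))^m`, and `tm ξ η m = tm a b m`. (`S_tc`, `S_bin` may be assumed.) -/
def S_g2 : Prop := ∀ (r : ℕ) (ξ η : Fin r → ℤ), ¬ (ξ = 0 ∧ η = 0) →
  (∃ a b : ℤ, ¬ (a = 0 ∧ b = 0) ∧ a • ξ + b • η = 0) →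
    ∃ K : ℕ, 1 ≤ K ∧ Tendsto (fun m : ℕ => Real.log (tm ξ η m) / m) atTop (𝓝 (Real.log K))

/-- (W9) **Growth for cycles.** Proof: if `ξ`, `η` are torsion elements, `S_g0`. Otherwise, by `S_split` and
`S_small`, `log tm ξ η m` differs from `m log (tc E) + log tm ξ̄ η̄ m` by at most `log (tc E)`, and
`E ⧸ torsion E` is isomorphic to `ℤ^r`, so `S_g1` or `S_g2` applies to `ξ̄`, `η̄` (not both zero). (`S_tc` and
all the others may be assumed.) -/
def S_grow' : Prop := S_tc → S_g0 → S_split → S_small → S_g1 → S_g2 → S_grow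

end Pool.Agent.Q181.TG
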