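import Pool.Agent.Q181.TG.Stm4
import Pool.Agent.Q181.LR.Up
import Pool.Agent.Y226.FK.Chain

set_option autoImplicit false

/-!
# Statements, part 5: matrices of norm slightly above `3 / √2` over the Heisenberg group

`Heis ℤ`, the group ring element `elt ℤ N = 1 + N t - N u t` and the determinants of its finite quotients
are those of the starting files (`Pool/Agent/Helper993/HeisDet.lean`, `Pool/Agent/Y226/FK/Chain.lean`).
`Pool.Agent.Q181.LR.Eqv A B` says that `B = P (A ⊕ 1) P'` with invertible `P`, `P'`.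
-/

namespace Pool.Agent.Q181.TG

open Matrix Filter Topology
open Pool.Agent.Q181.LR (Eqv)
open Pool.Agent.Helper993.HeisDet

/-- (H1) **Equivalent matrices.** Proof: `reg X` is multiplicative (`reg X (A * B) = reg X A * reg X B`:
`(h * k) • z = x` iff `h • (k • z) = x`) and `reg X 1 = 1`, so for `B = P (A ⊕ 1) P'`, after the obvious
bijections, `reg X B = P₁ (reg X A ⊕ 1) P₁'` with invertible integral matrices `P₁`, `P₁'`, and the cokernels
are isomorphic. -/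
def S_req : Prop := ∀ (G : Type) [Group G] (ι κ Y : Type) [Fintype ι] [DecidableEq ι] [Fintype κ]
  [DecidableEq κ] [Fintype Y] [DecidableEq Y] (A : Matrix ι κ (MonoidAlgebra ℤ G))
  (B : Matrix (ι ⊕ Y) (κ ⊕ Y) (MonoidAlgebra ℤ G)), Eqv A B →
    ∀ (X : Type) [Finite X] [MulAction G X],
      Nonempty (Cok (reg X B) ≃+ Cok (reg X A))

/-- (H2) **Determinants.** `Submodule.natAbs_det_equiv` or `natAbs_det_basis_change`. -/
def S_det : Prop := ∀ (α : Type) [Fintype α] [DecidableEq α] (M : Matrix α α ℤ), M.det ≠ 0 →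
  Finite (Cok M) ∧ Nat.card (Cok M) = M.det.natAbs ∧ tc (Cok M) = M.det.natAbs

/-- the `1 × 1` matrix `1 + N t - N u t` -/
noncomputable def hm (N : ℕ) : Matrix (Fin 1) (Fin 1) (MonoidAlgebra ℤ (Heis ℤ)) :=
  Matrix.of fun _ _ => elt ℤ (N : ℤ)

/-- the normalised logarithms of the orders of the torsion along a chain of subgroups -/
noncomputable def nlog {G : Type} [Group G] {ι κ : Type} (A : Matrix ι κ (MonoidAlgebra ℤ G))
    (C : ℕ → Subgroup G) (i : ℕ) : ℝ :=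
  Real.log (tc (Cok (reg (G ⧸ C i) A))) / Nat.card (G ⧸ C i)

/-- (H3) **The Heisenberg group.** Proof. The matrix `reg (Heis ℤ ⧸ C) (hm N)` has the entries
`a (x y⁻¹)` at `((x, 0), (y, 0))`, `a` the image of `elt ℤ N` in the group ring of the quotient, the matrix
`gmat` of `HeisDet` the entries `a (x⁻¹ y)`; substitute `x⁻¹`, `y⁻¹`. So for the chains `ch s`
(`Y226/FK/Chain.lean`; `s : Sq`) its determinant is `D (s.k i) (s.k i) (s.k i) N` (`det_ch`) and for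
`HeisDet.chain` and `N = 10` it is `Dseq i` (`det_chain`); both are not zero (`D_norm_ge_one`,
`Dseq_norm_ge`), so `tc` is the absolute value (`S_det`). (1) as in the proof of
`Pool.Agent.Y226.FK.exists_chain` (`exists_seq`, `tendsto_log_D`; `P = 1 - x / log N`). (2) `no_limit`.
(`S_det`, `S_tc` may be assumed.) -/
def S_heis : Prop :=
  (∀ N : ℕ, 2 ≤ N → ∀ x : ℝ, 0 < x → x ≤ Real.log N → ∃ C : ℕ → Subgroup (Heis ℤ),
    (∀ i, (C i).Normal) ∧ (∀ i, (C i).FiniteIndex) ∧ C 0 = ⊤ ∧ Antitone C ∧ ⨅ i, C i = ⊥ ∧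
      (∀ i, Finite (Cok (reg (Heis ℤ ⧸ C i) (hm N)))) ∧ Tendsto (nlog (hm N) C) atTop (𝓝 x)) ∧
  ∃ C : ℕ → Subgroup (Heis ℤ),
    (∀ i, (C i).Normal) ∧ (∀ i, (C i).FiniteIndex) ∧ C 0 = ⊤ ∧ Antitone C ∧ ⨅ i, C i = ⊥ ∧
      (∀ i, Finite (Cok (reg (Heis ℤ ⧸ C i) (hm 10)))) ∧
      ¬ ∃ x : ℝ, Tendsto (nlog (hm 10) C) atTop (𝓝 x)

/-- (H4) **Above `3 / √2` there is no convergence.** Proof: `Pool.Agent.Q181.LR.upper_rect (hm N)` for large
`L` (reindex `Fin 1 ⊕ Fin m` to `Fin (1 + m)`, `LR.NormLE_sub`; `reg` of a reindexed matrix is a reindexed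
matrix), `S_req`, `S_heis`. (`S_tc`, `S_req`, `S_heis` may be assumed.) -/
def S_neg : Prop := ∀ c : ℝ, 3 / Real.sqrt 2 < c →
  (∀ N : ℕ, 2 ≤ N → ∃ (n : ℕ) (A : Matrix (Fin n) (Fin n) (MonoidAlgebra ℤ (Heis ℤ))),
    TH57.Thr.NormLE A c ∧ (∀ x : ℝ, 0 < x → x ≤ Real.log N → ∃ C : ℕ → Subgroup (Heis ℤ),
      (∀ i, (C i).Normal) ∧ (∀ i, (C i).FiniteIndex) ∧ C 0 = ⊤ ∧ Antitone C ∧ ⨅ i, C i = ⊥ ∧
        (∀ i, Finite (Cok (reg (Heis ℤ ⧸ C i) A))) ∧ Tendsto (nlog A C) atTop (𝓝 x)) ∧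
    (N = 10 → ∃ C : ℕ → Subgroup (Heis ℤ),
      (∀ i, (C i).Normal) ∧ (∀ i, (C i).FiniteIndex) ∧ C 0 = ⊤ ∧ Antitone C ∧ ⨅ i, C i = ⊥ ∧
        (∀ i, Finite (Cok (reg (Heis ℤ ⧸ C i) A))) ∧
        ¬ ∃ x : ℝ, Tendsto (nlog A C) atTop (𝓝 x)))

end Pool.Agent.Q181.TG
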